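import Mathlib

set_option autoImplicit false

/-!
# Radicals of Gaussian integers
-/

namespace Pool.Agent.U624.Oct

/-- the complex absolute value -/
noncomputable def nm (z : GaussianInt) : ℝ := ‖GaussianInt.toComplex z‖

/-- the normalised Gaussian primes dividing `n` -/
def P (n : GaussianInt) : Set GaussianInt := {Q | Prime Q ∧ Q ∣ n ∧ (0 < Q.re ∧ 0 ≤ Q.im)}

/-- the product of the absolute values of the Gaussian primes dividing `n` -/
noncomputable def rad (n : GaussianInt) : ℝ := ∏ᶠ Q ∈ P n, nm Q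

theorem nm_sq (z : GaussianInt) : nm z ^ 2 = (z.re : ℝ) ^ 2 + (z.im : ℝ) ^ 2 := by
  unfold nm
  rw [← Complex.normSq_eq_norm_sq, Complex.normSq_apply, ← GaussianInt.intCast_re,
    ← GaussianInt.intCast_im]
  ring

theorem nm_nonneg (z : GaussianInt) : 0 ≤ nm z := norm_nonneg _

theorem nm_mul (z w : GaussianInt) : nm (z * w) = nm z * nm w := by
  unfold nm
  rw [map_mul, norm_mul]

theorem nm_pow (z : GaussianInt) (n : ℕ) : nm (z ^ n) = nm z ^ n := by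
  unfold nm
  rw [map_pow, norm_pow]

theorem nm_neg (z : GaussianInt) : nm (-z) = nm z := by
  unfold nm
  rw [map_neg, norm_neg]

theorem nm_add (z w : GaussianInt) : nm (z + w) ≤ nm z + nm w := by
  unfold nm
  rw [map_add]
  exact norm_add_le _ _

theorem nm_sub (z w : GaussianInt) : nm (z - w) ≤ nm z + nm w := by
  unfold nm
  rw [map_sub]
  exact norm_sub_le _ _

theorem nm_one : nm 1 = 1 := by
  unfold nm
  rw [map_one, norm_one]

theorem nm_zero : nm 0 = 0 := by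
  unfold nm
  rw [map_zero, norm_zero]

theorem nm_ofNat (n : ℕ) [n.AtLeastTwo] : nm (OfNat.ofNat n : GaussianInt) = (OfNat.ofNat n : ℝ) := by
  unfold nm
  rw [map_ofNat]
  simp

theorem one_le_nm {z : GaussianInt} (hz : z ≠ 0) : 1 ≤ nm z := by
  have h1 : (1 : ℤ) ≤ z.re ^ 2 + z.im ^ 2 := by
    by_contra h
    have h2 : z.re ^ 2 + z.im ^ 2 = 0 := by
      have := sq_nonneg z.re
      have := sq_nonneg z.im
      omega
    have h3 : z.re ^ 2 = 0 := by nlinarith [sq_nonneg z.re, sq_nonneg z.im]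
    have h4 : z.im ^ 2 = 0 := by nlinarith [sq_nonneg z.re, sq_nonneg z.im]
    apply hz
    exact Zsqrtd.ext (by simpa using h3) (by simpa using h4)
  have h2 : (1 : ℝ) ≤ nm z ^ 2 := by
    rw [nm_sq]
    exact_mod_cast h1
  have h3 := nm_nonneg z
  nlinarith

theorem nm_pos {z : GaussianInt} (hz : z ≠ 0) : 0 < nm z := lt_of_lt_of_le one_pos (one_le_nm hz)

/-- finitely many Gaussian integers are in a disc -/
theorem disc_finite (Y : ℝ) : {z : GaussianInt | nm z ≤ Y}.Finite := by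
  have h1 : {z : GaussianInt | nm z ≤ Y} ⊆
      (fun p : ℤ × ℤ => (⟨p.1, p.2⟩ : GaussianInt)) ''
        ((Set.Icc (-⌈|Y|⌉) ⌈|Y|⌉) ×ˢ (Set.Icc (-⌈|Y|⌉) ⌈|Y|⌉)) := by
    intro z hz
    have hz : nm z ≤ Y := hz
    have h0 := nm_sq z
    have h1 : |(z.re : ℝ)| ≤ nm z := by
      apply abs_le_of_sq_le_sq _ (nm_nonneg z)
      rw [h0]
      nlinarith [sq_nonneg (z.im : ℝ)]
    have h2 : |(z.im : ℝ)| ≤ nm z := by
      apply abs_le_of_sq_le_sq _ (nm_nonneg z)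
      rw [h0]
      nlinarith [sq_nonneg (z.re : ℝ)]
    have h3 : Y ≤ (⌈|Y|⌉ : ℝ) := (le_abs_self Y).trans (Int.le_ceil _)
    have h4 := abs_le.1 (h1.trans (hz.trans h3))
    have h5 := abs_le.1 (h2.trans (hz.trans h3))
    refine ⟨(z.re, z.im), ⟨⟨?_, ?_⟩, ⟨?_, ?_⟩⟩, rfl⟩
    · exact_mod_cast h4.1
    · exact_mod_cast h4.2
    · exact_mod_cast h5.1
    · exact_mod_cast h5.2
  exact (((Set.finite_Icc _ _).prod (Set.finite_Icc _ _)).image _).subset h1

theorem nm_le_of_dvd {m n : GaussianInt} (h : m ∣ n) (hn : n ≠ 0) : nm m ≤ nm n := by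
  obtain ⟨k, rfl⟩ := h
  rw [nm_mul]
  exact le_mul_of_one_le_right (nm_nonneg _) (one_le_nm (right_ne_zero_of_mul hn))

theorem P_finite {n : GaussianInt} (hn : n ≠ 0) : (P n).Finite :=
  (disc_finite (nm n)).subset fun _ hQ => nm_le_of_dvd hQ.2.1 hn

theorem one_le_of_P {n Q : GaussianInt} (h : Q ∈ P n) : 1 ≤ nm Q := one_le_nm h.1.ne_zero

theorem rad_eq {n : GaussianInt} (hn : n ≠ 0) : rad n = ∏ Q ∈ (P_finite hn).toFinset, nm Q := by
  unfold rad
  rw [finprod_mem_eq_finite_toFinset_prod _ (P_finite hn)]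

theorem one_le_prod {S : Finset GaussianInt} (h : ∀ Q ∈ S, 1 ≤ nm Q) : 1 ≤ ∏ Q ∈ S, nm Q := by
  calc (1 : ℝ) = ∏ Q ∈ S, (1 : ℝ) := by simp
    _ ≤ ∏ Q ∈ S, nm Q := Finset.prod_le_prod (fun _ _ => by norm_num) h

theorem prod_mono {S T : Finset GaussianInt} (h : S ⊆ T) (h1 : ∀ Q ∈ T, 1 ≤ nm Q) :
    ∏ Q ∈ S, nm Q ≤ ∏ Q ∈ T, nm Q := by
  classical
  rw [← Finset.prod_sdiff h]
  refine le_mul_of_one_le_left (Finset.prod_nonneg fun _ _ => nm_nonneg _) ?_
  exact one_le_prod fun Q hQ => h1 Q (Finset.mem_sdiff.1 hQ).1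

theorem one_le_rad {n : GaussianInt} (hn : n ≠ 0) : 1 ≤ rad n := by
  rw [rad_eq hn]
  refine one_le_prod ?_
  intro Q hQ
  rw [Set.Finite.mem_toFinset] at hQ
  exact one_le_of_P hQ

theorem rad_mono {m n : GaussianInt} (hm : m ≠ 0) (hn : n ≠ 0) (h : P m ⊆ P n) : rad m ≤ rad n := by
  rw [rad_eq hm, rad_eq hn]
  refine prod_mono ?_ ?_
  · intro Q hQ
    rw [Set.Finite.mem_toFinset] at hQ ⊢
    exact h hQ
  · intro Q hQ
    rw [Set.Finite.mem_toFinset] at hQ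
    exact one_le_of_P hQ

theorem P_mono {m n : GaussianInt} (h : m ∣ n) : P m ⊆ P n := fun _ hQ => ⟨hQ.1, hQ.2.1.trans h, hQ.2.2⟩

theorem rad_dvd {m n : GaussianInt} (h : m ∣ n) (hn : n ≠ 0) : rad m ≤ rad n :=
  rad_mono (ne_zero_of_dvd_ne_zero hn h) hn (P_mono h)

theorem P_mul (m n : GaussianInt) : P (m * n) ⊆ P m ∪ P n := by
  rintro Q ⟨h1, h2, h3⟩
  rcases h1.dvd_or_dvd h2 with h | h
  · exact Or.inl ⟨h1, h, h3⟩
  · exact Or.inr ⟨h1, h, h3⟩

theorem P_pow (n : GaussianInt) (k : ℕ) : P (n ^ k) ⊆ P n := by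
  rintro Q ⟨h1, h2, h3⟩
  exact ⟨h1, h1.dvd_of_dvd_pow h2, h3⟩

theorem rad_mul_le {m n : GaussianInt} (hm : m ≠ 0) (hn : n ≠ 0) :
    rad (m * n) ≤ rad m * rad n := by
  classical
  rw [rad_eq (mul_ne_zero hm hn), rad_eq hm, rad_eq hn]
  have h1 : (P_finite (mul_ne_zero hm hn)).toFinset ⊆
      (P_finite hm).toFinset ∪ ((P_finite hn).toFinset \ (P_finite hm).toFinset) := by
    intro Q hQ
    rw [Set.Finite.mem_toFinset] at hQ
    rw [Finset.mem_union, Finset.mem_sdiff, Set.Finite.mem_toFinset, Set.Finite.mem_toFinset]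
    rcases P_mul m n hQ with h | h
    · exact Or.inl h
    · by_cases h' : Q ∈ P m
      · exact Or.inl h'
      · exact Or.inr ⟨h, h'⟩
  have h2 : ∀ Q ∈ (P_finite hm).toFinset ∪ ((P_finite hn).toFinset \ (P_finite hm).toFinset),
      1 ≤ nm Q := by
    intro Q hQ
    rw [Finset.mem_union, Finset.mem_sdiff, Set.Finite.mem_toFinset, Set.Finite.mem_toFinset] at hQ
    rcases hQ with h | h
    · exact one_le_of_P h
    · exact one_le_of_P h.1
  refine (prod_mono h1 h2).trans ?_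
  rw [Finset.prod_union Finset.disjoint_sdiff]
  refine mul_le_mul_of_nonneg_left ?_ (Finset.prod_nonneg fun _ _ => nm_nonneg _)
  refine prod_mono Finset.sdiff_subset ?_
  intro Q hQ
  rw [Set.Finite.mem_toFinset] at hQ
  exact one_le_of_P hQ

theorem unit_cases {u : GaussianInt} (hu : IsUnit u) :
    u = 1 ∨ u = -1 ∨ u = ⟨0, 1⟩ ∨ u = ⟨0, -1⟩ := by
  have h1 : u.norm = 1 := (Zsqrtd.norm_eq_one_iff' (by norm_num) u).2 hu
  rw [Zsqrtd.norm_def] at h1
  have h2 : u.re * u.re + u.im * u.im = 1 := by linarith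
  have h3 : -1 ≤ u.re := by nlinarith [mul_self_nonneg u.im, mul_self_nonneg (u.re + 1)]
  have h4 : u.re ≤ 1 := by nlinarith [mul_self_nonneg u.im, mul_self_nonneg (u.re - 1)]
  have h5 : -1 ≤ u.im := by nlinarith [mul_self_nonneg u.re, mul_self_nonneg (u.im + 1)]
  have h6 : u.im ≤ 1 := by nlinarith [mul_self_nonneg u.re, mul_self_nonneg (u.im - 1)]
  obtain ⟨x, y⟩ := u
  simp only at h2 h3 h4 h5 h6
  have h7 : (x = 1 ∧ y = 0) ∨ (x = -1 ∧ y = 0) ∨ (x = 0 ∧ y = 1) ∨ (x = 0 ∧ y = -1) := by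
    interval_cases x <;> interval_cases y <;> simp_all
  rcases h7 with ⟨rfl, rfl⟩ | ⟨rfl, rfl⟩ | ⟨rfl, rfl⟩ | ⟨rfl, rfl⟩
  · exact Or.inl rfl
  · exact Or.inr (Or.inl rfl)
  · exact Or.inr (Or.inr (Or.inl rfl))
  · exact Or.inr (Or.inr (Or.inr rfl))

theorem uniq {z w : GaussianInt} (hz : 0 < z.re ∧ 0 ≤ z.im) (hw : 0 < w.re ∧ 0 ≤ w.im)
    (h : Associated z w) : z = w := by
  obtain ⟨u, hu⟩ := h
  obtain ⟨h1, h2⟩ := hz
  obtain ⟨h3, h4⟩ := hw
  rcases unit_cases u.isUnit with h | h | h | h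
  · rw [← hu, h, mul_one]
  · rw [← hu, h] at h3
    simp at h3
    omega
  · rw [← hu, h] at h3
    simp at h3
    omega
  · rw [← hu, h] at h4
    simp at h4
    omega

/-- the radical of a nonzero number is at most its absolute value -/
theorem rad_le {n : GaussianInt} (hn : n ≠ 0) : rad n ≤ nm n := by
  classical
  rw [rad_eq hn]
  have hfin := P_finite hn
  have h1 : ∏ Q ∈ hfin.toFinset, Q ∣ n := by
    refine Finset.prod_dvd_of_coprime ?_ ?_
    · intro P hP Q hQ hPQ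
      rw [Finset.mem_coe, Set.Finite.mem_toFinset] at hP hQ
      refine (hP.1.irreducible.coprime_iff_not_dvd).2 ?_
      intro h
      apply hPQ
      exact uniq hP.2.2 hQ.2.2 ((hP.1.dvd_prime_iff_associated hQ.1).1 h)
    · intro Q hQ
      rw [Set.Finite.mem_toFinset] at hQ
      exact hQ.2.1
  obtain ⟨m, hm⟩ := h1
  have hm0 : m ≠ 0 := by
    rintro rfl
    exact hn (by rw [hm, mul_zero])
  have h2 : nm (∏ Q ∈ hfin.toFinset, Q) = ∏ Q ∈ hfin.toFinset, nm Q := by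
    unfold nm
    rw [map_prod, norm_prod]
  calc ∏ Q ∈ hfin.toFinset, nm Q = nm (∏ Q ∈ hfin.toFinset, Q) := h2.symm
    _ ≤ nm (∏ Q ∈ hfin.toFinset, Q) * nm m :=
        le_mul_of_one_le_right (nm_nonneg _) (one_le_nm hm0)
    _ = nm n := by rw [← nm_mul, ← hm]

/-- at most `9 Y ^ 2` Gaussian integers of absolute value at most `Y` -/
theorem card_disc {Y : ℝ} (hY : 1 ≤ Y) : (({z : GaussianInt | nm z ≤ Y}.ncard : ℕ) : ℝ) ≤ 9 * Y ^ 2 := by
  classical
  obtain ⟨m, hm⟩ : ∃ m : ℤ, m = ⌊Y⌋ := ⟨_, rfl⟩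
  have hm0 : 0 ≤ m := by rw [hm]; exact Int.floor_nonneg.2 (by linarith)
  have h1 : {z : GaussianInt | nm z ≤ Y} ⊆
      (((Finset.Icc (-m) m) ×ˢ (Finset.Icc (-m) m)).image fun p => (⟨p.1, p.2⟩ : GaussianInt) :
        Finset GaussianInt) := by
    intro z hz
    have hz : nm z ≤ Y := hz
    have h0 := nm_sq z
    have h1 : |(z.re : ℝ)| ≤ nm z := by
      apply abs_le_of_sq_le_sq _ (nm_nonneg z)
      rw [h0]
      nlinarith [sq_nonneg (z.im : ℝ)]
    have h2 : |(z.im : ℝ)| ≤ nm z := by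
      apply abs_le_of_sq_le_sq _ (nm_nonneg z)
      rw [h0]
      nlinarith [sq_nonneg (z.re : ℝ)]
    have h4 := abs_le.1 (h1.trans hz)
    have h5 := abs_le.1 (h2.trans hz)
    rw [Finset.mem_coe, Finset.mem_image]
    refine ⟨(z.re, z.im), ?_, rfl⟩
    rw [Finset.mem_product, Finset.mem_Icc, Finset.mem_Icc, hm]
    refine ⟨⟨?_, Int.le_floor.2 h4.2⟩, ⟨?_, Int.le_floor.2 h5.2⟩⟩
    · have : -z.re ≤ ⌊Y⌋ := Int.le_floor.2 (by push_cast; linarith [h4.1])
      simpa using neg_le.1 this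
    · have : -z.im ≤ ⌊Y⌋ := Int.le_floor.2 (by push_cast; linarith [h5.1])
      simpa using neg_le.1 this
  have h2 := Set.ncard_le_ncard h1 (Finset.finite_toSet _)
  rw [Set.ncard_coe_finset] at h2
  have h3 : ((2 * m + 1).toNat : ℤ) = 2 * m + 1 := Int.toNat_of_nonneg (by omega)
  have h4 : (((2 * m + 1).toNat : ℕ) : ℝ) = 2 * (m : ℝ) + 1 := by
    have h5 : (((2 * m + 1).toNat : ℕ) : ℝ) = (((2 * m + 1 : ℤ)) : ℝ) := by
      rw [← h3]; push_cast; rfl
    rw [h5]; push_cast; ring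
  have h5 : ({z : GaussianInt | nm z ≤ Y}.ncard : ℕ) ≤ (2 * m + 1).toNat * (2 * m + 1).toNat := by
    refine h2.trans (Finset.card_image_le.trans ?_)
    rw [Finset.card_product, Int.card_Icc]
    have : m + 1 - -m = 2 * m + 1 := by ring
    rw [this]
  have h6 : (m : ℝ) ≤ Y := by rw [hm]; exact Int.floor_le Y
  have h7 : (0 : ℝ) ≤ m := by exact_mod_cast hm0
  calc (({z : GaussianInt | nm z ≤ Y}.ncard : ℕ) : ℝ) ≤ (2 * (m : ℝ) + 1) * (2 * (m : ℝ) + 1) := by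
        rw [← h4]; exact_mod_cast h5
    _ ≤ 9 * Y ^ 2 := by nlinarith

end Pool.Agent.U624.Oct
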