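import Mathlib
import Pool.Agent.U624.Oct.Base

set_option autoImplicit false

/-!
# The octahedral forms
-/

namespace Pool.Agent.U624.Oct

/-- the form of degree 8 -/
def H (u v : GaussianInt) : GaussianInt := u ^ 8 + 14 * u ^ 4 * v ^ 4 + v ^ 8

/-- the form of degree 12 -/
def T (u v : GaussianInt) : GaussianInt := u ^ 12 - 33 * u ^ 8 * v ^ 4 - 33 * u ^ 4 * v ^ 8 + v ^ 12

/-- the form of degree 6 -/
def f (u v : GaussianInt) : GaussianInt := u * v * (u ^ 4 - v ^ 4)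

theorem syzygy (u v : GaussianInt) : T u v ^ 2 + 108 * f u v ^ 4 = H u v ^ 3 := by
  unfold T f H
  ring

theorem gcd_dvd {u v d : GaussianInt} (huv : IsCoprime u v) (h1 : d ∣ T u v) (h2 : d ∣ H u v) :
    d ∣ 576 := by
  have e1 : T u v + 3 * (u ^ 4 + v ^ 4) * H u v = 4 * (u ^ 4 + v ^ 4) ^ 3 := by
    unfold T H
    ring
  have h3 : d ∣ 4 * (u ^ 4 + v ^ 4) ^ 3 := by
    rw [← e1]
    exact dvd_add h1 (h2.mul_left _)
  have e2 : 576 * (u * v) ^ 8 = 4 * (H u v - 2 * (u ^ 4 + v ^ 4) ^ 2) * H u v +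
      (u ^ 4 + v ^ 4) * (4 * (u ^ 4 + v ^ 4) ^ 3) := by
    unfold H
    ring
  have h4 : d ∣ 576 * (u * v) ^ 8 := by
    rw [e2]
    exact dvd_add (h2.mul_left _) (h3.mul_left _)
  have h5 : IsCoprime (H u v) u := by
    have := (huv.symm.pow_left (m := 8)).add_mul_left_left (u ^ 7 + 14 * u ^ 3 * v ^ 4)
    have e : H u v = v ^ 8 + u * (u ^ 7 + 14 * u ^ 3 * v ^ 4) := by
      unfold H
      ring
    rwa [e]
  have h6 : IsCoprime (H u v) v := by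
    have := (huv.pow_left (m := 8)).add_mul_left_left (v ^ 7 + 14 * v ^ 3 * u ^ 4)
    have e : H u v = u ^ 8 + v * (v ^ 7 + 14 * v ^ 3 * u ^ 4) := by
      unfold H
      ring
    rwa [e]
  have h7 : IsCoprime d ((u * v) ^ 8) :=
    ((h5.mul_right h6).pow_right).of_isCoprime_of_dvd_left h2
  exact h7.dvd_of_dvd_mul_right h4

/-- the larger of the absolute values of the two sides -/
noncomputable def ht (x z : GaussianInt) : ℝ := max (nm x ^ 2) (nm z ^ 3)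

theorem ht_nonneg (x z : GaussianInt) : 0 ≤ ht x z := le_max_of_le_left (sq_nonneg _)

theorem nm_three : nm 3 = 3 := nm_ofNat 3
theorem nm_four : nm 4 = 4 := nm_ofNat 4
theorem nm_twelve : nm 12 = 12 := nm_ofNat 12

/-- both arguments are small if the two forms are -/
theorem small {u v : GaussianInt} {W : ℝ} (hW : 0 < W) (h : ht (T u v) (H u v) ≤ W ^ 24) :
    nm u ≤ 2 * W := by
  have hT : nm (T u v) ≤ (W ^ 4) ^ 3 := by
    refine le_of_pow_le_pow_left₀ (n := 2) (by norm_num) (by positivity) ?_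
    calc nm (T u v) ^ 2 ≤ ht (T u v) (H u v) := le_max_left _ _
      _ ≤ W ^ 24 := h
      _ = ((W ^ 4) ^ 3) ^ 2 := by ring
  have hH : nm (H u v) ≤ (W ^ 4) ^ 2 := by
    refine le_of_pow_le_pow_left₀ (n := 3) (by norm_num) (by positivity) ?_
    calc nm (H u v) ^ 3 ≤ ht (T u v) (H u v) := le_max_right _ _
      _ ≤ W ^ 24 := h
      _ = ((W ^ 4) ^ 2) ^ 3 := by ring
  obtain ⟨M, hM⟩ : ∃ M, M = W ^ 4 := ⟨_, rfl⟩
  have hM0 : 0 < M := by rw [hM]; positivity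
  rw [← hM] at hT hH
  have e1 : 4 * (u ^ 4 + v ^ 4) ^ 3 = T u v + 3 * ((u ^ 4 + v ^ 4) * H u v) := by
    unfold T H
    ring
  have h1 : 4 * nm (u ^ 4 + v ^ 4) ^ 3 ≤ M ^ 3 + 3 * (nm (u ^ 4 + v ^ 4) * M ^ 2) := by
    calc 4 * nm (u ^ 4 + v ^ 4) ^ 3 = nm (4 * (u ^ 4 + v ^ 4) ^ 3) := by
          rw [nm_mul, nm_pow, nm_four]
      _ = nm (T u v + 3 * ((u ^ 4 + v ^ 4) * H u v)) := by rw [e1]
      _ ≤ nm (T u v) + 3 * (nm (u ^ 4 + v ^ 4) * nm (H u v)) := by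
          refine (nm_add _ _).trans ?_
          rw [nm_mul 3, nm_mul, nm_three]
      _ ≤ M ^ 3 + 3 * (nm (u ^ 4 + v ^ 4) * M ^ 2) := by
          have := mul_le_mul_of_nonneg_left hH (nm_nonneg (u ^ 4 + v ^ 4))
          linarith
  have hE : nm (u ^ 4 + v ^ 4) ≤ M := by
    by_contra hc
    push Not at hc
    have h2 : M ^ 3 < nm (u ^ 4 + v ^ 4) ^ 3 := pow_lt_pow_left₀ hc hM0.le (by norm_num)
    have h3 : M ^ 2 < nm (u ^ 4 + v ^ 4) ^ 2 := pow_lt_pow_left₀ hc hM0.le (by norm_num)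
    have h4 : nm (u ^ 4 + v ^ 4) * M ^ 2 ≤ nm (u ^ 4 + v ^ 4) ^ 3 := by
      have := mul_le_mul_of_nonneg_left h3.le (nm_nonneg (u ^ 4 + v ^ 4))
      calc nm (u ^ 4 + v ^ 4) * M ^ 2 ≤ nm (u ^ 4 + v ^ 4) * nm (u ^ 4 + v ^ 4) ^ 2 := this
        _ = nm (u ^ 4 + v ^ 4) ^ 3 := by ring
    linarith
  have e2 : 12 * (u ^ 4 * v ^ 4) = H u v - (u ^ 4 + v ^ 4) ^ 2 := by
    unfold H
    ring
  have h2 : 12 * nm (u ^ 4 * v ^ 4) ≤ 2 * M ^ 2 := by
    calc 12 * nm (u ^ 4 * v ^ 4) = nm (12 * (u ^ 4 * v ^ 4)) := by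
          rw [nm_mul 12, nm_twelve]
      _ = nm (H u v - (u ^ 4 + v ^ 4) ^ 2) := by rw [e2]
      _ ≤ nm (H u v) + nm (u ^ 4 + v ^ 4) ^ 2 := by
          refine (nm_sub _ _).trans ?_
          rw [nm_pow]
      _ ≤ M ^ 2 + M ^ 2 := add_le_add hH (pow_le_pow_left₀ (nm_nonneg _) hE 2)
      _ = 2 * M ^ 2 := by ring
  have e3 : (u ^ 4) ^ 2 = (u ^ 4 + v ^ 4) * u ^ 4 - u ^ 4 * v ^ 4 := by ring
  have h3 : nm (u ^ 4) ^ 2 ≤ M * nm (u ^ 4) + nm (u ^ 4 * v ^ 4) := by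
    calc nm (u ^ 4) ^ 2 = nm ((u ^ 4) ^ 2) := (nm_pow _ 2).symm
      _ = nm ((u ^ 4 + v ^ 4) * u ^ 4 - u ^ 4 * v ^ 4) := by rw [e3]
      _ ≤ nm (u ^ 4 + v ^ 4) * nm (u ^ 4) + nm (u ^ 4 * v ^ 4) := by
          refine (nm_sub _ _).trans ?_
          rw [nm_mul (u ^ 4 + v ^ 4)]
      _ ≤ M * nm (u ^ 4) + nm (u ^ 4 * v ^ 4) := by
          have := mul_le_mul_of_nonneg_right hE (nm_nonneg (u ^ 4))
          linarith
  have h4 : nm (u ^ 4) ≤ 2 * M := by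
    by_contra hc
    push Not at hc
    nlinarith
  rw [nm_pow, hM] at h4
  refine le_of_pow_le_pow_left₀ (n := 4) (by norm_num) (by positivity) ?_
  have : 0 < W ^ 4 := by positivity
  calc nm u ^ 4 ≤ 2 * W ^ 4 := h4
    _ ≤ (2 * W) ^ 4 := by nlinarith

theorem T_symm (u v : GaussianInt) : T u v = T v u := by
  unfold T
  ring

theorem H_symm (u v : GaussianInt) : H u v = H v u := by
  unfold H
  ring

theorem small' {u v : GaussianInt} {W : ℝ} (hW : 0 < W) (h : ht (T u v) (H u v) ≤ W ^ 24) :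
    nm v ≤ 2 * W := by
  rw [T_symm, H_symm] at h
  exact small hW h

theorem one_le_ht {x y z : GaussianInt} (h : x ^ 2 + 108 * y ^ 4 = z ^ 3) (hy : y ≠ 0) :
    1 ≤ ht x z := by
  by_cases hx : x = 0
  · have hz : z ≠ 0 := by
      rintro rfl
      rw [hx] at h
      have : (108 : GaussianInt) * y ^ 4 = 0 := by simpa using h
      rcases mul_eq_zero.1 this with h1 | h1
      · have := congrArg Zsqrtd.re h1
        norm_num at this
      · exact hy (pow_eq_zero_iff (by norm_num) |>.1 h1)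
    exact le_max_of_le_right (one_le_pow₀ (one_le_nm hz))
  · exact le_max_of_le_left (one_le_pow₀ (one_le_nm hx))

end Pool.Agent.U624.Oct
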