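import Mathlib
import Pool.Agent.U624.Oct.Alg

set_option autoImplicit false

/-!
# The implications
-/

namespace Pool.Agent.U624.Oct

/-- the larger of the three absolute values -/
noncomputable def size (a b : GaussianInt) : ℝ := max (nm a) (max (nm b) (nm (a + b)))

/-- a solution of the octahedral equation -/
structure Sol (x y z : GaussianInt) : Prop where
  eq : x ^ 2 + 108 * y ^ 4 = z ^ 3
  y0 : y ≠ 0
  gcd : ∀ d : GaussianInt, d ∣ x → d ∣ z → d ∣ 576

theorem sol_forms {u v : GaussianInt} (h : IsCoprime u v) (hf : f u v ≠ 0) :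
    Sol (T u v) (f u v) (H u v) := ⟨syzygy u v, hf, fun _ h1 h2 => gcd_dvd h h1 h2⟩

theorem split {x y : GaussianInt} (h : x ≠ 0 ∨ y ≠ 0) : ∃ g x' y' : GaussianInt, g ≠ 0 ∧
    g * x' = x ∧ g * y' = y ∧ IsCoprime x' y' := by
  obtain ⟨a, b, hab⟩ := IsBezout.gcd_eq_sum x y
  obtain ⟨x', hx⟩ := IsBezout.gcd_dvd_left x y
  obtain ⟨y', hy⟩ := IsBezout.gcd_dvd_right x y
  obtain ⟨g, hg⟩ : ∃ g, g = IsBezout.gcd x y := ⟨_, rfl⟩
  rw [← hg] at hab hx hy
  have hg0 : g ≠ 0 := by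
    rintro rfl
    rw [zero_mul] at hx hy
    rcases h with h | h
    · exact h hx
    · exact h hy
  refine ⟨g, x', y', hg0, hx.symm, hy.symm, a, b, ?_⟩
  apply mul_left_cancel₀ hg0
  rw [mul_one]
  calc g * (a * x' + b * y') = a * (g * x') + b * (g * y') := by ring
    _ = g := by rw [← hx, ← hy, hab]

theorem nm_unit {a : GaussianInt} (h : IsUnit a) : nm a = 1 := by
  obtain ⟨b, hb⟩ := h.exists_right_inv
  have ha0 : a ≠ 0 := by
    rintro rfl
    simp at hb
  have hb0 : b ≠ 0 := by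
    rintro rfl
    simp at hb
  have h1 : nm a * nm b = 1 := by rw [← nm_mul, hb, nm_one]
  have h2 := one_le_nm ha0
  have h3 := one_le_nm hb0
  nlinarith

theorem one_le_size {a b : GaussianInt} (h : a ≠ 0) : 1 ≤ size a b :=
  (one_le_nm h).trans (le_max_left _ _)

theorem size_le {a b : GaussianInt} {Y : ℝ} (ha : nm a ≤ Y) (hb : nm b ≤ Y) (hY : 0 ≤ Y) :
    size a b ≤ 2 * Y := by
  have := nm_add a b
  unfold size
  refine max_le (by linarith) (max_le (by linarith) (by linarith))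

/-- the inequality for the forms implies the abc inequality -/
theorem abc_of_forms
    (h : ∀ ε : ℝ, 0 < ε → ∃ c : ℝ, 0 < c ∧ ∀ u v : GaussianInt, IsCoprime u v → f u v ≠ 0 →
      c * ht (T u v) (H u v) ^ (1 / 6 - ε) ≤ rad (f u v)) :
    ∀ ε : ℝ, 0 < ε → ∃ c : ℝ, 0 < c ∧ ∀ a b : GaussianInt, a ≠ 0 → b ≠ 0 → a + b ≠ 0 →
      IsCoprime a b → c * size a b ^ (1 - ε) ≤ rad (a * b * (a + b)) := by
  intro ε hε
  obtain ⟨δ, hδ⟩ : ∃ δ, δ = min ε 1 := ⟨_, rfl⟩
  have hδ0 : 0 < δ := by rw [hδ]; exact lt_min hε one_pos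
  have hδ1 : δ ≤ 1 := by rw [hδ]; exact min_le_right _ _
  have hδε : δ ≤ ε := by rw [hδ]; exact min_le_left _ _
  obtain ⟨c, hc, h1⟩ := h (δ / 24) (by linarith)
  refine ⟨min (1 / 2) (c / 4 * (1 / 4) ^ (4 - δ)), by positivity, ?_⟩
  intro a b ha hb hab hco
  have hs1 := one_le_size (b := b) ha
  obtain ⟨M, hM⟩ : ∃ M, M = size a b := ⟨_, rfl⟩
  rw [← hM] at hs1
  have hMa : nm a ≤ M := by rw [hM]; exact le_max_left _ _
  have hMb : nm b ≤ M := by rw [hM]; exact le_max_of_le_right (le_max_left _ _)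
  have hM0 : 0 < M := by linarith
  have h2 : M ^ (1 - ε) ≤ M ^ (1 - δ) := Real.rpow_le_rpow_of_exponent_le hs1 (by linarith)
  have hR := one_le_rad (mul_ne_zero (mul_ne_zero ha hb) hab)
  rw [← hM]
  by_cases hf : f a b = 0
  · -- both numbers are units
    have h3 : a ^ 4 = b ^ 4 := by
      unfold f at hf
      rcases mul_eq_zero.1 hf with h4 | h4
      · exact absurd h4 (mul_ne_zero ha hb)
      · linear_combination h4
    have h4 : IsUnit a := by
      refine (hco.pow_right (n := 4)).isUnit_of_dvd' dvd_rfl ?_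
      rw [← h3]
      exact dvd_pow_self a (by norm_num)
    have h5 : IsUnit b := by
      refine (hco.symm.pow_right (n := 4)).isUnit_of_dvd' dvd_rfl ?_
      rw [h3]
      exact dvd_pow_self b (by norm_num)
    have h6 : M ≤ 2 := by
      rw [hM]
      have := size_le (nm_unit h4).le (nm_unit h5).le zero_le_one
      linarith
    have h7 : M ^ (1 - δ) ≤ M := by
      conv_rhs => rw [← Real.rpow_one M]
      exact Real.rpow_le_rpow_of_exponent_le hs1 (by linarith)
    calc min (1 / 2) (c / 4 * (1 / 4) ^ (4 - δ)) * M ^ (1 - ε) ≤ 1 / 2 * M := by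
          refine mul_le_mul (min_le_left _ _) (h2.trans h7) (by positivity) (by norm_num)
      _ ≤ 1 := by linarith
      _ ≤ _ := hR
  · have h3 := h1 a b hco hf
    obtain ⟨B, hB⟩ : ∃ B, B = ht (T a b) (H a b) := ⟨_, rfl⟩
    rw [← hB] at h3
    have hB1 : 1 ≤ B := by
      rw [hB]
      exact one_le_ht (syzygy a b) hf
    have hB0 : 0 < B := by linarith
    -- the size is at most `4 B ^ (1 / 24)`
    have h4 : M ≤ 4 * B ^ (1 / 24 : ℝ) := by
      have hW : 0 < B ^ (1 / 24 : ℝ) := by positivity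
      have e1 : (B ^ (1 / 24 : ℝ)) ^ 24 = B := by
        rw [← Real.rpow_natCast, ← Real.rpow_mul hB0.le]
        norm_num
      have h5 : ht (T a b) (H a b) ≤ (B ^ (1 / 24 : ℝ)) ^ 24 := by rw [e1, hB]
      have h6 := size_le (small hW h5) (small' hW h5) (by positivity)
      rw [hM]
      linarith
    have h5 : (M * (1 / 4)) ^ (4 - δ) ≤ B ^ (1 / 6 - δ / 24) := by
      calc (M * (1 / 4)) ^ (4 - δ) ≤ (B ^ (1 / 24 : ℝ)) ^ (4 - δ) := by
            refine Real.rpow_le_rpow (by positivity) (by linarith) (by linarith)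
        _ = B ^ (1 / 6 - δ / 24) := by
            rw [← Real.rpow_mul hB0.le]
            congr 1
            ring
    have hp0 : (a - b) * (a ^ 2 + b ^ 2) ≠ 0 := by
      intro h0
      apply hf
      have : f a b = a * b * (a + b) * ((a - b) * (a ^ 2 + b ^ 2)) := by
        unfold f
        ring
      rw [this, h0, mul_zero]
    have h6 : rad (f a b) ≤ rad (a * b * (a + b)) * (4 * M ^ 3) := by
      have e1 : f a b = a * b * (a + b) * ((a - b) * (a ^ 2 + b ^ 2)) := by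
        unfold f
        ring
      rw [e1]
      refine (rad_mul_le (mul_ne_zero (mul_ne_zero ha hb) hab) hp0).trans ?_
      refine mul_le_mul_of_nonneg_left ?_ (by linarith)
      refine (rad_le hp0).trans ?_
      rw [nm_mul]
      have h7 : nm (a - b) ≤ 2 * M := (nm_sub a b).trans (by linarith)
      have h8 : nm (a ^ 2 + b ^ 2) ≤ 2 * M ^ 2 := by
        refine (nm_add _ _).trans ?_
        rw [nm_pow, nm_pow]
        have := pow_le_pow_left₀ (nm_nonneg a) hMa 2
        have := pow_le_pow_left₀ (nm_nonneg b) hMb 2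
        linarith
      calc nm (a - b) * nm (a ^ 2 + b ^ 2) ≤ (2 * M) * (2 * M ^ 2) :=
            mul_le_mul h7 h8 (nm_nonneg _) (by positivity)
        _ = 4 * M ^ 3 := by ring
    have h7 : c * (M * (1 / 4)) ^ (4 - δ) ≤ rad (a * b * (a + b)) * (4 * M ^ 3) :=
      ((mul_le_mul_of_nonneg_left h5 hc.le).trans h3).trans h6
    have h8 : (M * (1 / 4)) ^ (4 - δ) = M ^ (1 - δ) * M ^ 3 * (1 / 4) ^ (4 - δ) := by
      rw [Real.mul_rpow hM0.le (by norm_num)]
      congr 1
      rw [← Real.rpow_natCast, ← Real.rpow_add hM0]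
      congr 1
      push_cast
      ring
    rw [h8] at h7
    have h9 : c / 4 * (1 / 4) ^ (4 - δ) * M ^ (1 - δ) ≤ rad (a * b * (a + b)) := by
      have hM3 : 0 < M ^ 3 := by positivity
      refine le_of_mul_le_mul_right ?_ hM3
      linarith
    refine le_trans ?_ h9
    exact mul_le_mul (min_le_right _ _) h2 (by positivity) (by positivity)

theorem nm_108 : nm 108 = 108 := nm_ofNat 108
theorem nm_576 : nm 576 = 576 := nm_ofNat 576
theorem ne_108 : (108 : GaussianInt) ≠ 0 := by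
  intro h
  have := congrArg nm h
  rw [nm_108, nm_zero] at this
  norm_num at this
theorem ne_576 : (576 : GaussianInt) ≠ 0 := by
  intro h
  have := congrArg nm h
  rw [nm_576, nm_zero] at this
  norm_num at this

/-- the abc inequality for the points of the equation implies the bound for the radical of `y` -/
theorem rad_of_points
    (h : ∀ ε : ℝ, 0 < ε → ∃ c : ℝ, 0 < c ∧ ∀ a b x y z g : GaussianInt, Sol x y z →
      g * a = x ^ 2 → g * b = 108 * y ^ 4 → a ≠ 0 → b ≠ 0 → a + b ≠ 0 →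
      IsCoprime a b → c * size a b ^ (1 - ε) ≤ rad (a * b * (a + b))) :
    ∀ ε : ℝ, 0 < ε → ∃ c : ℝ, 0 < c ∧ ∀ x y z : GaussianInt, Sol x y z →
      c * ht x z ^ (1 / 6 - ε) ≤ rad y := by
  intro ε hε
  obtain ⟨δ, hδ⟩ : ∃ δ, δ = min ε 1 := ⟨_, rfl⟩
  have hδ0 : 0 < δ := by rw [hδ]; exact lt_min hε one_pos
  have hδ1 : δ ≤ 1 := by rw [hδ]; exact min_le_right _ _
  have hδε : δ ≤ ε := by rw [hδ]; exact min_le_left _ _
  obtain ⟨c, hc, h1⟩ := h δ hδ0
  refine ⟨min (1 / 576 ^ 3) (c / 108 * (1 / 576 ^ 3) ^ (1 - δ)), by positivity, ?_⟩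
  intro x y z hS
  obtain ⟨B, hB⟩ : ∃ B, B = ht x z := ⟨_, rfl⟩
  have hB1 : 1 ≤ B := by
    rw [hB]
    exact one_le_ht hS.eq hS.y0
  have hB0 : 0 < B := by linarith
  have hR := one_le_rad hS.y0
  rw [← hB]
  have hcase : (x = 0 ∨ z = 0) → B ≤ 576 ^ 3 := by
    intro h0
    rw [hB]
    rcases h0 with h0 | h0
    · have h2 := hS.gcd z (by rw [h0]; exact dvd_zero z) dvd_rfl
      have h3 := nm_le_of_dvd h2 ne_576
      rw [nm_576] at h3
      unfold ht
      rw [h0, nm_zero]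
      refine max_le (by norm_num) ?_
      exact pow_le_pow_left₀ (nm_nonneg _) h3 3
    · have h2 := hS.gcd x dvd_rfl (by rw [h0]; exact dvd_zero x)
      have h3 := nm_le_of_dvd h2 ne_576
      rw [nm_576] at h3
      unfold ht
      rw [h0, nm_zero]
      refine max_le ?_ (by norm_num)
      calc nm x ^ 2 ≤ 576 ^ 2 := pow_le_pow_left₀ (nm_nonneg _) h3 2
        _ ≤ 576 ^ 3 := by norm_num
  have hexp : B ^ (1 / 6 - ε) ≤ B ^ (1 / 6 - δ) := Real.rpow_le_rpow_of_exponent_le hB1 (by linarith)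
  by_cases h0 : x = 0 ∨ z = 0
  · have h2 : B ^ (1 / 6 - ε) ≤ B := by
      conv_rhs => rw [← Real.rpow_one B]
      exact Real.rpow_le_rpow_of_exponent_le hB1 (by linarith)
    calc min (1 / 576 ^ 3) (c / 108 * (1 / 576 ^ 3) ^ (1 - δ)) * B ^ (1 / 6 - ε)
        ≤ 1 / 576 ^ 3 * 576 ^ 3 := by
          refine mul_le_mul (min_le_left _ _) (h2.trans (hcase h0)) (by positivity) (by norm_num)
      _ = 1 := by norm_num
      _ ≤ _ := hR
  · push Not at h0
    obtain ⟨hx0, hz0⟩ := h0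
    have hy4 : (108 : GaussianInt) * y ^ 4 ≠ 0 := mul_ne_zero ne_108 (pow_ne_zero 4 hS.y0)
    obtain ⟨g, a, b, hg0, hga, hgb, hco⟩ := split (x := x ^ 2) (y := 108 * y ^ 4)
      (Or.inl (pow_ne_zero 2 hx0))
    have hgab : g * (a + b) = z ^ 3 := by rw [mul_add, hga, hgb, hS.eq]
    have ha0 : a ≠ 0 := by
      rintro rfl
      rw [mul_zero] at hga
      exact pow_ne_zero 2 hx0 hga.symm
    have hb0 : b ≠ 0 := by
      rintro rfl
      rw [mul_zero] at hgb
      exact hy4 hgb.symm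
    have hab0 : a + b ≠ 0 := by
      intro h2
      rw [h2, mul_zero] at hgab
      exact pow_ne_zero 3 hz0 hgab.symm
    have h2 := h1 a b x y z g hS hga hgb ha0 hb0 hab0 hco
    -- the common factor is bounded
    obtain ⟨d, x', z', hd0, hdx, hdz, hco'⟩ := split (x := x) (y := z) (Or.inl hx0)
    have h3 : g ∣ d ^ 3 := by
      have h4 : g ∣ d ^ 3 * x' ^ 2 := by
        have : d ^ 3 * x' ^ 2 = g * (a * d) := by
          calc d ^ 3 * x' ^ 2 = d * (d * x') ^ 2 := by ring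
            _ = d * (g * a) := by rw [hdx, hga]
            _ = g * (a * d) := by ring
        rw [this]
        exact dvd_mul_right _ _
      have h5 : g ∣ d ^ 3 * z' ^ 3 := by
        have : d ^ 3 * z' ^ 3 = g * (a + b) := by
          calc d ^ 3 * z' ^ 3 = (d * z') ^ 3 := by ring
            _ = g * (a + b) := by rw [hdz, hgab]
        rw [this]
        exact dvd_mul_right _ _
      obtain ⟨r, s, hrs⟩ := hco'.pow (m := 2) (n := 3)
      have : d ^ 3 = r * (d ^ 3 * x' ^ 2) + s * (d ^ 3 * z' ^ 3) := by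
        calc d ^ 3 = d ^ 3 * (r * x' ^ 2 + s * z' ^ 3) := by rw [hrs, mul_one]
          _ = _ := by ring
      rw [this]
      exact dvd_add (h4.mul_left _) (h5.mul_left _)
    have h4 : d ∣ 576 := by
      refine hS.gcd d ?_ ?_
      · rw [← hdx]; exact dvd_mul_right _ _
      · rw [← hdz]; exact dvd_mul_right _ _
    have h5 : nm g ≤ 576 ^ 3 := by
      calc nm g ≤ nm (d ^ 3) := nm_le_of_dvd h3 (pow_ne_zero 3 hd0)
        _ = nm d ^ 3 := nm_pow d 3
        _ ≤ 576 ^ 3 := by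
            have := nm_le_of_dvd h4 ne_576
            rw [nm_576] at this
            exact pow_le_pow_left₀ (nm_nonneg _) this 3
    -- the size
    have h6 : B ≤ 576 ^ 3 * size a b := by
      have h7 : B ≤ nm g * size a b := by
        rw [hB]
        unfold ht
        refine max_le ?_ ?_
        · rw [← nm_pow, ← hga, nm_mul]
          exact mul_le_mul_of_nonneg_left (le_max_left _ _) (nm_nonneg _)
        · rw [← nm_pow, ← hgab, nm_mul]
          exact mul_le_mul_of_nonneg_left (le_max_of_le_right (le_max_right _ _)) (nm_nonneg _)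
      refine h7.trans (mul_le_mul_of_nonneg_right h5 ?_)
      have := one_le_size (b := b) ha0
      linarith
    have h7 : (B * (1 / 576 ^ 3)) ^ (1 - δ) ≤ size a b ^ (1 - δ) := by
      refine Real.rpow_le_rpow (by positivity) ?_ (by linarith)
      rw [mul_one_div, div_le_iff₀ (by norm_num)]
      linarith
    -- the radical
    have hyxz : 108 * (x * z) ≠ (0 : GaussianInt) := mul_ne_zero ne_108 (mul_ne_zero hx0 hz0)
    have h8 : rad (a * b * (a + b)) ≤ rad y * (108 * B ^ (5 / 6 : ℝ)) := by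
      have h9 : P (a * b * (a + b)) ⊆ P (y * (108 * (x * z))) := by
        rintro Q ⟨hQ1, hQ2, hQ3⟩
        refine ⟨hQ1, ?_, hQ3⟩
        rcases hQ1.dvd_or_dvd hQ2 with h10 | h10
        · rcases hQ1.dvd_or_dvd h10 with h11 | h11
          · have h12 : Q ∣ x := by
              apply hQ1.dvd_of_dvd_pow (n := 2)
              rw [← hga]
              exact h11.mul_left _
            exact ((h12.mul_right z).mul_left 108).mul_left y
          · have h12 : Q ∣ 108 * y ^ 4 := by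
              rw [← hgb]
              exact h11.mul_left _
            rcases hQ1.dvd_or_dvd h12 with h13 | h13
            · exact (h13.mul_right _).mul_left _
            · exact (hQ1.dvd_of_dvd_pow h13).mul_right _
        · have h12 : Q ∣ z := by
            apply hQ1.dvd_of_dvd_pow (n := 3)
            rw [← hgab]
            exact h10.mul_left _
          exact ((h12.mul_left x).mul_left 108).mul_left y
      have h10 := rad_mono (mul_ne_zero (mul_ne_zero ha0 hb0) hab0) (mul_ne_zero hS.y0 hyxz) h9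
      refine (h10.trans (rad_mul_le hS.y0 hyxz)).trans ?_
      refine mul_le_mul_of_nonneg_left ?_ (by linarith)
      refine (rad_le hyxz).trans ?_
      rw [nm_mul, nm_mul, nm_108]
      refine mul_le_mul_of_nonneg_left ?_ (by norm_num)
      have hx' : nm x ≤ B ^ (1 / 2 : ℝ) := by
        have : nm x ^ 2 ≤ B := by rw [hB]; exact le_max_left _ _
        calc nm x = (nm x ^ 2) ^ (1 / 2 : ℝ) := by
              rw [← Real.rpow_natCast, ← Real.rpow_mul (nm_nonneg x)]
              norm_num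
          _ ≤ B ^ (1 / 2 : ℝ) := Real.rpow_le_rpow (by positivity) this (by norm_num)
      have hz' : nm z ≤ B ^ (1 / 3 : ℝ) := by
        have : nm z ^ 3 ≤ B := by rw [hB]; exact le_max_right _ _
        calc nm z = (nm z ^ 3) ^ (1 / 3 : ℝ) := by
              rw [← Real.rpow_natCast, ← Real.rpow_mul (nm_nonneg z)]
              norm_num
          _ ≤ B ^ (1 / 3 : ℝ) := Real.rpow_le_rpow (pow_nonneg (nm_nonneg _) _) this (by norm_num)
      calc nm x * nm z ≤ B ^ (1 / 2 : ℝ) * B ^ (1 / 3 : ℝ) :=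
            mul_le_mul hx' hz' (nm_nonneg _) (by positivity)
        _ = B ^ (5 / 6 : ℝ) := by
            rw [← Real.rpow_add hB0]
            norm_num
    have h9 : c * (B * (1 / 576 ^ 3)) ^ (1 - δ) ≤ rad y * (108 * B ^ (5 / 6 : ℝ)) :=
      ((mul_le_mul_of_nonneg_left h7 hc.le).trans h2).trans h8
    have h10 : (B * (1 / 576 ^ 3)) ^ (1 - δ) =
        B ^ (1 / 6 - δ) * B ^ (5 / 6 : ℝ) * (1 / 576 ^ 3) ^ (1 - δ) := by
      rw [Real.mul_rpow hB0.le (by norm_num), ← Real.rpow_add hB0]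
      congr 2
      ring
    rw [h10] at h9
    have h11 : c / 108 * (1 / 576 ^ 3) ^ (1 - δ) * B ^ (1 / 6 - δ) ≤ rad y := by
      have hB5 : 0 < B ^ (5 / 6 : ℝ) := by positivity
      refine le_of_mul_le_mul_right ?_ hB5
      linarith
    refine le_trans ?_ h11
    exact mul_le_mul (min_le_right _ _) hexp (by positivity) (by positivity)

/-- few points -/
theorem count {X : ℝ} (hX : 1 ≤ X) :
    {t : GaussianInt × GaussianInt × GaussianInt | ∃ u v : GaussianInt, IsCoprime u v ∧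
      f u v ≠ 0 ∧ t = (T u v, f u v, H u v) ∧ ht t.1 t.2.2 ≤ X}.Finite ∧
    (({t : GaussianInt × GaussianInt × GaussianInt | ∃ u v : GaussianInt, IsCoprime u v ∧
      f u v ≠ 0 ∧ t = (T u v, f u v, H u v) ∧ ht t.1 t.2.2 ≤ X}.ncard : ℕ) : ℝ) ≤
      1296 * X ^ (1 / 6 : ℝ) := by
  have hX0 : 0 < X := by linarith
  obtain ⟨W, hW⟩ : ∃ W, W = X ^ (1 / 24 : ℝ) := ⟨_, rfl⟩
  have hW1 : 1 ≤ W := by rw [hW]; exact Real.one_le_rpow hX (by norm_num)
  have hW0 : 0 < W := by linarith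
  have e1 : W ^ 24 = X := by
    rw [hW, ← Real.rpow_natCast, ← Real.rpow_mul hX0.le]
    norm_num
  have e2 : W ^ 4 = X ^ (1 / 6 : ℝ) := by
    rw [hW, ← Real.rpow_natCast, ← Real.rpow_mul hX0.le]
    norm_num
  have h1 : {t : GaussianInt × GaussianInt × GaussianInt | ∃ u v : GaussianInt, IsCoprime u v ∧
      f u v ≠ 0 ∧ t = (T u v, f u v, H u v) ∧ ht t.1 t.2.2 ≤ X} ⊆
      (fun p : GaussianInt × GaussianInt => (T p.1 p.2, f p.1 p.2, H p.1 p.2)) ''
        ({z | nm z ≤ 2 * W} ×ˢ {z | nm z ≤ 2 * W}) := by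
    rintro t ⟨u, v, -, -, rfl, h⟩
    have h' : ht (T u v) (H u v) ≤ W ^ 24 := by rw [e1]; exact h
    exact ⟨(u, v), ⟨small hW0 h', small' hW0 h'⟩, rfl⟩
  have hfin : (({z : GaussianInt | nm z ≤ 2 * W} ×ˢ {z : GaussianInt | nm z ≤ 2 * W})).Finite :=
    (disc_finite _).prod (disc_finite _)
  refine ⟨(hfin.image _).subset h1, ?_⟩
  have h2 := (Set.ncard_le_ncard h1 (hfin.image _)).trans (Set.ncard_image_le hfin)
  rw [Set.ncard_prod] at h2
  have h3 := card_disc (Y := 2 * W) (by linarith)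
  have h4 : (0 : ℝ) ≤ (({z : GaussianInt | nm z ≤ 2 * W}.ncard : ℕ) : ℝ) := Nat.cast_nonneg _
  calc _ ≤ (({z : GaussianInt | nm z ≤ 2 * W}.ncard : ℕ) : ℝ) *
        (({z : GaussianInt | nm z ≤ 2 * W}.ncard : ℕ) : ℝ) := by exact_mod_cast h2
    _ ≤ (9 * (2 * W) ^ 2) * (9 * (2 * W) ^ 2) := mul_le_mul h3 h3 h4 (by positivity)
    _ = 1296 * W ^ 4 := by ring
    _ = _ := by rw [e2]

/-- the exponent is the best possible -/
theorem sharp (N : ℝ) : ∃ u v : GaussianInt, IsCoprime u v ∧ f u v ≠ 0 ∧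
    N ≤ ht (T u v) (H u v) ∧ rad (f u v) ≤ 4 * ht (T u v) (H u v) ^ (1 / 6 : ℝ) := by
  obtain ⟨k, hk⟩ := pow_unbounded_of_one_lt N (show (1 : ℝ) < 2 by norm_num)
  obtain ⟨m, hm⟩ : ∃ m, m = k + 1 := ⟨_, rfl⟩
  have hm2 : (2 : ℝ) ≤ 2 ^ m := by
    rw [hm, pow_succ]
    have : (1 : ℝ) ≤ 2 ^ k := one_le_pow₀ (by norm_num)
    linarith
  have hnm2 : nm (2 ^ m) = 2 ^ m := by rw [nm_pow, nm_ofNat]
  have hne2 : (2 : GaussianInt) ^ m ≠ 0 := by
    intro h
    rw [h, nm_zero] at hnm2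
    linarith
  have h1 : nm (1 - (2 ^ m) ^ 4) ≤ 2 * (2 ^ m) ^ 4 := by
    refine (nm_sub _ _).trans ?_
    rw [nm_one, nm_pow, hnm2]
    have : (1 : ℝ) ≤ (2 ^ m) ^ 4 := one_le_pow₀ (by linarith)
    linarith
  have h1' : (1 : GaussianInt) - (2 ^ m) ^ 4 ≠ 0 := by
    intro h
    have h2 : ((2 : GaussianInt) ^ m) ^ 4 = 1 := by linear_combination -h
    have h3 := congrArg nm h2
    rw [nm_one, nm_pow, hnm2] at h3
    have : (2 : ℝ) ^ 4 ≤ (2 ^ m) ^ 4 := pow_le_pow_left₀ (by norm_num) hm2 4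
    rw [h3] at this
    norm_num at this
  have hf : f 1 (2 ^ m) = 2 ^ m * (1 - (2 ^ m) ^ 4) := by
    unfold f
    ring
  -- the height
  have h2 : (2 ^ m) ^ 8 ≤ nm (H 1 (2 ^ m)) := by
    have e1 : H 1 (2 ^ m) = (((2 ^ m) ^ 8 + 14 * (2 ^ m) ^ 4 + 1 : ℕ) : GaussianInt) := by
      unfold H
      push_cast
      ring
    have e2 : nm (H 1 (2 ^ m)) = (2 ^ m) ^ 8 + 14 * (2 ^ m) ^ 4 + 1 := by
      rw [e1]
      unfold nm
      rw [map_natCast, Complex.norm_natCast]
      push_cast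
      ring
    rw [e2]
    have : (0 : ℝ) ≤ (2 ^ m) ^ 4 := by positivity
    linarith
  have h3 : ((2 : ℝ) ^ m) ^ 24 ≤ ht (T 1 (2 ^ m)) (H 1 (2 ^ m)) := by
    calc ((2 : ℝ) ^ m) ^ 24 = ((2 ^ m) ^ 8) ^ 3 := by ring
      _ ≤ nm (H 1 (2 ^ m)) ^ 3 := pow_le_pow_left₀ (by positivity) h2 3
      _ ≤ _ := le_max_right _ _
  refine ⟨1, 2 ^ m, isCoprime_one_left, ?_, ?_, ?_⟩
  · rw [hf]
    exact mul_ne_zero hne2 h1'
  · calc N ≤ 2 ^ k := hk.le
      _ ≤ 2 ^ m := pow_le_pow_right₀ (by norm_num) (by omega)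
      _ ≤ (2 ^ m) ^ 24 := le_self_pow₀ (by linarith) (by norm_num)
      _ ≤ _ := h3
  · have h4 : rad (f 1 (2 ^ m)) ≤ 2 * (2 * (2 ^ m) ^ 4) := by
      rw [hf]
      refine (rad_mul_le hne2 h1').trans ?_
      have h20 : (2 : GaussianInt) ≠ 0 := by
        intro h
        have := nm_ofNat 2
        rw [h, nm_zero] at this
        norm_num at this
      refine mul_le_mul ?_ ((rad_le h1').trans h1) (zero_le_one.trans (one_le_rad h1')) (by norm_num)
      calc rad (2 ^ m) ≤ rad 2 := rad_mono hne2 h20 (P_pow 2 m)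
        _ ≤ nm 2 := rad_le h20
        _ = 2 := nm_ofNat 2
    have h5 : ((2 : ℝ) ^ m) ^ 4 ≤ ht (T 1 (2 ^ m)) (H 1 (2 ^ m)) ^ (1 / 6 : ℝ) := by
      calc ((2 : ℝ) ^ m) ^ 4 = (((2 : ℝ) ^ m) ^ 24) ^ (1 / 6 : ℝ) := by
            have h6 : (0 : ℝ) ≤ 2 ^ m := by positivity
            rw [← Real.rpow_natCast, ← Real.rpow_natCast (2 ^ m) 24, ← Real.rpow_mul h6]
            norm_num
        _ ≤ _ := Real.rpow_le_rpow (by positivity) h3 (by norm_num)
    linarith

end Pool.Agent.U624.Oct
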